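import Pool.Agent.Helper75x.CE.Defs
import Pool.Agent.Helper75x.CE.Geometry

/-!
# A circle and a confocal non-circular ellipse: at most ten stationary points

`ellipse F u w a e` is the ellipse with focus `F`, major semi-axis `a` and eccentricity `e` in the
plane through `F` spanned by the orthonormal vectors `u, w`, parametrised by the eccentric anomaly;
for `e = 0` it is the circle with centre `F`. For two such curves with the same focus `F`, exactly
one of which is a circle, the squared distance has at most ten stationary points.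

Idea of the proof. In terms of the direction `θ` of the point of the ellipse seen from the focus
(measured from the common line of the two planes), the stationary points are the solutions of
`Ψ(θ) = ± v`, where `Ψ` has two poles. Between two solutions there is a zero of `Ψ` or of `Ψ'`.
With `n = - r' / r`, `Ψ'` is a positive multiple of `Φ / n`, where `Φ = n² + A n + S(θ)` and
`A, S` depend only on `θ`. The pair `(Φ, Λ)` satisfies a linear system of differential equations,
which bounds the number of zeros of `Φ` by one on the half period where `n < 0`; on the other half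
period the zero set of `Φ` is the graph of a function `E(θ) = 1 / e` whose critical points are
local maxima for `A > 0` and local minima for `A < 0`, so that there are at most three zeros.
-/

set_option autoImplicit false

namespace Pool.Agent.Results.MP_4e5648_mp.CircleEllipseAtMostTen

open Pool.Agent.Helper75x.CE

/-- For every pair of confocal ellipses of `ℝ³` exactly one of which is a circle, the squared
distance has finitely many, and at most ten, stationary points. -/
theorem result (F u₁ w₁ u₂ w₂ : EuclideanSpace ℝ (Fin 3)) (a₁ e₁ a₂ e₂ : ℝ)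
    (ha₁ : 0 < a₁) (ha₂ : 0 < a₂) (he₁ : 0 ≤ e₁ ∧ e₁ < 1) (he₂ : 0 ≤ e₂ ∧ e₂ < 1)
    (h₁ : Orthonormal ℝ ![u₁, w₁]) (h₂ : Orthonormal ℝ ![u₂, w₂])
    (hcircle : (e₁ = 0 ∧ e₂ ≠ 0) ∨ (e₁ ≠ 0 ∧ e₂ = 0)) :
    (stationaryPoints (ellipse F u₁ w₁ a₁ e₁) (ellipse F u₂ w₂ a₂ e₂)).Finite ∧
      (stationaryPoints (ellipse F u₁ w₁ a₁ e₁) (ellipse F u₂ w₂ a₂ e₂)).ncard ≤ 10 := by
  have hu₁ : ‖u₁‖ = 1 := by simpa using h₁.1 0
  have hw₁ : ‖w₁‖ = 1 := by simpa using h₁.1 1
  have hu₂ : ‖u₂‖ = 1 := by simpa using h₂.1 0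
  have hw₂ : ‖w₂‖ = 1 := by simpa using h₂.1 1
  have hi₁ : inner ℝ u₁ w₁ = 0 := by
    simpa using h₁.2 (show (0 : Fin 2) ≠ 1 by decide)
  have hi₂ : inner ℝ u₂ w₂ = 0 := by
    simpa using h₂.2 (show (0 : Fin 2) ≠ 1 by decide)
  rcases hcircle with ⟨h0, hne⟩ | ⟨hne, h0⟩
  · rw [h0]
    exact circle_ellipse F u₁ w₁ u₂ w₂ a₁ a₂ e₂ ha₁ ha₂ (lt_of_le_of_ne he₂.1 (Ne.symm hne)) he₂.2
      hu₁ hw₁ hi₁ hu₂ hw₂ hi₂
  · rw [h0]
    have h := circle_ellipse F u₂ w₂ u₁ w₁ a₂ a₁ e₁ ha₂ ha₁
      (lt_of_le_of_ne he₁.1 (Ne.symm hne)) he₁.2 hu₂ hw₂ hi₂ hu₁ hw₁ hi₁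
    have hsub := stationaryPoints_swap (ellipse F u₁ w₁ a₁ e₁) (ellipse F u₂ w₂ a₂ 0)
    exact ⟨(h.1.image _).subset hsub, (Set.ncard_le_ncard hsub (h.1.image _)).trans
      ((Set.ncard_image_le h.1).trans h.2)⟩

end Pool.Agent.Results.MP_4e5648_mp.CircleEllipseAtMostTen
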